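import Pool.Agent.Helper3.TP.St
import Pool.Agent.Helper3.TL.M_EVENT
import Pool.Agent.Helper80.TL.M_FAM1

/-! Project TP, module EVA: parts (1) to (4) of the event lemma. -/

set_option autoImplicit false

open Finset
open MP86d903 (Valid Lit inside mem_inside pt flip Clause Ineq clauseIneq vsF ngF)
open Helper80.SR (Exp Closed Cl Sm)
open Helper3.TL Helper3.TP

namespace Helper36.TP

private theorem SC_closed {ι V : Type} [DecidableEq ι] [Fintype ι] [DecidableEq V] [Fintype V]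
    {vs : ι → Finset V} {q : ℕ} {A : Finset V} (h : SC vs 3 q A) : Closed vs q A := by
  intro S hS hq hc
  have h1 := h S hS hq hc
  have h2 := hS.card_pos
  omega

theorem hEvA (_hR : PRad) (hA2 : PAdj2) (hPl : PPool) (hB : PBadN) : PEvA := by
  intro ι V _ _ _ _ vs ng q D κ B Ym Hv T T' g A A' ρ a w c cw x Q hE hκ ha hw hAA' hSC hYm hg1
    hgB hQ1 hQ2 hx1 hxB hT hpool hv hwA hX
  obtain ⟨t1, t2, -, t4, t5, -⟩ := Helper80.TL.hFam1 ι V vs ng q D κ A hE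
  have hAc : Closed vs q A := hE.closed.closed'
  have hA'c : Closed vs q A' := SC_closed hSC
  obtain ⟨K, hK⟩ : ∃ K, K = evK D B Ym Hv := ⟨_, rfl⟩
  obtain ⟨J, hJ⟩ : ∃ J, J = evJ D B Ym Hv := ⟨_, rfl⟩
  obtain ⟨P, hP⟩ : ∃ P, P = evP B Hv := ⟨_, rfl⟩
  have hJ' : J = Hv + B * K + 9 * B := by rw [hJ, hK]; rfl
  have hP' : P = 27 * B ^ 2 + 3 * B * Hv + 1 := by rw [hP]; rfl
  have hK1 : 3 * (3 * P + Ym) ≤ K := by
    rw [hK, hP]
    unfold evK
    omega
  have hκ1 : K + 3 * J + 3 * P + 10 ≤ κ := by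
    refine le_trans ?_ hκ
    rw [hK, hJ, hP]
    unfold evS
    omega
  rw [← hP, ← hK, ← hJ]
  have hT' : (6 * B + 1) * (adjT D K J + Ym + 1 + T') + 1 ≤ T := by
    rw [hK, hJ]
    exact hT
  obtain ⟨y, hy, hP1⟩ := hPl ι V vs ng q B T (adjT D K J + Ym + 1 + T') A a a w x x hw hT' hpool
  have hyB := (abs_le.mp hy).2
  have hgB' : (g : ℤ) ≤ 3 * B := by exact_mod_cast hgB
  have hB0 : (0 : ℤ) ≤ B := Int.natCast_nonneg B
  have hHv0 : (0 : ℤ) ≤ Hv := Int.natCast_nonneg Hv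
  have hYm0 : (0 : ℤ) ≤ Ym := Int.natCast_nonneg Ym
  -- good points
  have hgood : ∀ R σ, Ext vs ng q A κ A ρ R σ → A' ⊆ R → lv a c R σ ≤ -(2 * g) →
      lv w cw R σ ≤ 0 := by
    intro R σ h1 h2 h3
    obtain ⟨r, hr1, hr2⟩ := hQ2 (lv a c R σ)
    have h4 := (hQ1 r hr1).2
    exact hX R σ h1 h2 ⟨r, hr1, by omega, hr2⟩
  -- values at extensions
  have hbd : ∀ (f : V → ℤ) (f₀ : ℤ), (∀ i, |f i| ≤ B) → ∀ K' R σ, Ext vs ng q A K' A ρ R σ →
      |lv f f₀ R σ - lv f f₀ A ρ| ≤ B * K' := by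
    intro f f₀ hf K' R σ h
    rw [(t5 _ _ _ _ _ f f₀ h).1, add_sub_cancel_left]
    have h1 : |∑ i ∈ R \ A, f i * sg (σ i)| ≤ B * (R \ A).card := sum_sg_le hf σ
    have h3 : (B : ℤ) * ((R \ A).card : ℤ) ≤ B * K' := by
      refine mul_le_mul_of_nonneg_left ?_ hB0
      exact_mod_cast h.2.2.1
    omega
  -- (2)
  have hy0 : 0 ≤ y := by
    by_contra hneg
    rw [not_le] at hneg
    obtain ⟨ρ', hρ'⟩ := t4 Ym A ρ A' (subset_refl _) hAc hAA' hA'c hYm (by omega)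
    have hj : |(-(Hv + B * Ym + 6 * B) : ℤ)| ≤ (J : ℤ) := by
      rw [abs_neg, abs_of_nonneg (by positivity), hJ']
      push_cast
      have h1 : (B : ℤ) * Ym ≤ B * K := by
        refine mul_le_mul_of_nonneg_left ?_ hB0
        have : Ym ≤ K := by omega
        exact_mod_cast this
      linarith
    obtain ⟨R₂, σ₂, h1, h2, h3⟩ := hA2 ι V vs ng q D κ K J (adjT D K J + Ym + 1 + T') A A' ρ' a w x
      y (-(Hv + B * Ym + 6 * B)) hE hAA' hA'c (by omega) (by exact_mod_cast hj) (by omega) hP1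
    have h4 := hbd a c ha _ _ _ hρ'
    have h5 := hbd w cw hw _ _ _ hρ'
    have h6 := (abs_le.mp h4).2
    have h7 := (abs_le.mp h5).1
    have h8 := (abs_le.mp hv).2
    have h9 := hgood R₂ σ₂ ((t1 _ _ _ _ _ _ _ _ hρ' h1).mono (by omega)) (h1.1) (by
      rw [h2 c]
      have h10 : (0 : ℤ) ≤ (Hv + B * Ym + 6 * B) * (x - 1) :=
        mul_nonneg (by positivity) (by omega)
      have h11 : (-(Hv + B * Ym + 6 * B) : ℤ) * x =
        -((Hv + B * Ym + 6 * B) * (x - 1)) - (Hv + B * Ym + 6 * B) := by ring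
      rw [h11]
      linarith)
    rw [h3 cw] at h9
    have h10 : (0 : ℤ) ≤ (Hv + B * Ym + 6 * B) * (-y - 1) :=
      mul_nonneg (by positivity) (by omega)
    have h11 : (-(Hv + B * Ym + 6 * B) : ℤ) * y =
      (Hv + B * Ym + 6 * B) * (-y - 1) + (Hv + B * Ym + 6 * B) := by ring
    rw [h11] at h9
    have h12 := (abs_le.mp h5).1
    linarith
  obtain ⟨dd, hdd⟩ : ∃ dd : V → ℤ, dd = fun i => x * w i - y * a i := ⟨_, rfl⟩
  obtain ⟨d₀, hd₀⟩ : ∃ d₀ : ℤ, d₀ = x * cw - y * c := ⟨_, rfl⟩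
  have hD : ∀ R₁ σ₁, lv dd d₀ R₁ σ₁ = x * lv w cw R₁ σ₁ - y * lv a c R₁ σ₁ := by
    intro R₁ σ₁
    rw [hdd, hd₀]
    exact lv_lin a w c cw x y R₁ σ₁
  -- (3) large points
  have hA : ∀ R σ, Ext vs ng q A (3 * (3 * P + Ym)) A ρ R σ → A' ⊆ R →
      lv dd d₀ R σ ≤ y * (2 * g + x) := by
    intro R σ h hR
    set v := lv a c R σ with hvdef
    obtain ⟨j, hj⟩ : ∃ j : ℤ, j = (-(2 * g) - v) / x := ⟨_, rfl⟩
    have hj1 : v + j * x ≤ -(2 * g) := by
      have := Int.ediv_mul_le (-(2 * (g : ℤ)) - v) (by omega : x ≠ 0)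
      rw [← hj] at this
      linarith
    have hj2 : -(2 * g) - x < v + j * x := by
      have := Int.lt_ediv_add_one_mul_self (-(2 * (g : ℤ)) - v) (by omega : 0 < x)
      rw [← hj] at this
      linarith
    have hvb : |v| ≤ Hv + B * K := by
      have h4 := hbd a c ha _ _ _ (h.mono hK1)
      have h5 := abs_le.mp h4
      have h6 := abs_le.mp hv
      rw [abs_le]
      constructor <;> linarith
    have hjJ : |j| ≤ (J : ℤ) := by
      have h3 : |j| ≤ |j * x| := by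
        rw [abs_mul]
        have h4 : 1 ≤ |x| := by
          rw [abs_of_nonneg (by omega)]
          exact hx1
        nlinarith [abs_nonneg j]
      have h7 := abs_le.mp hvb
      have h8 : |j * x| ≤ Hv + B * K + 9 * B := by
        rw [abs_le]
        constructor <;> linarith
      rw [hJ']
      push_cast
      exact h3.trans h8
    obtain ⟨R₂, σ₂, h1, h2, h3⟩ := hA2 ι V vs ng q D κ K J (adjT D K J + Ym + 1 + T') A R σ a w x
      y j hE h.1 h.2.1 (h.2.2.1.trans hK1) hjJ (by omega) hP1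
    have h4 := hgood R₂ σ₂ ((t1 _ _ _ _ _ _ _ _ h h1).mono (by omega)) (hR.trans h1.1) (by
      rw [h2 c]
      exact hj1)
    rw [h3 cw] at h4
    rw [hD, ← hvdef]
    have h5 : x * (lv w cw R σ + j * y) ≤ 0 := mul_nonpos_iff.2 (Or.inl ⟨by omega, h4⟩)
    have h6 : y * (-(v + j * x)) ≤ y * (2 * g + x) :=
      mul_le_mul_of_nonneg_left (by linarith) hy0
    have h7 : x * lv w cw R σ - y * v = x * (lv w cw R σ + j * y) + y * (-(v + j * x)) := by ring
    rw [h7]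
    linarith
  -- (3) small points
  have hB' : ∀ R σ, Ext vs ng q A (3 * P) A ρ R σ → lv dd d₀ R σ ≤ y * (2 * g + x) := by
    intro R σ h
    have hcl := hClo1 ι V vs q D κ A R (A' \ A) hE h.1 (by have := h.2.2.1; omega)
    have hsub : R ∪ A' \ A ⊆ Cl vs q (R ∪ A' \ A) := Helper80.SR.subset_Cl q _
    have hRs : R ⊆ Cl vs q (R ∪ A' \ A) := subset_union_left.trans hsub
    have hA's : A' ⊆ Cl vs q (R ∪ A' \ A) := by
      intro i hi
      by_cases hiA : i ∈ A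
      · exact hRs (h.1 hiA)
      · exact hsub (mem_union_right _ (mem_sdiff.2 ⟨hi, hiA⟩))
    obtain ⟨σ₁, hσ₁⟩ := t4 (3 * (3 * P + Ym)) R σ (Cl vs q (R ∪ A' \ A)) h.1 h.2.1 hRs
      (Helper80.SR.closed_Cl q _) (by have := h.2.2.1; omega) (by omega)
    have h1 := hA _ _ (t1 _ _ _ _ _ _ _ _ h hσ₁) hA's
    have h2 := hA _ _ (t1 _ _ _ _ _ _ _ _ h (t2 _ _ _ _ _ hσ₁)) hA's
    have h3 := t5 _ _ _ _ _ dd d₀ hσ₁
    rw [h3.1] at h1
    rw [h3.2] at h2
    linarith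
  have hyx : y * (2 * g + x) ≤ 27 * B ^ 2 := by
    have h1 : (2 * g + x : ℤ) ≤ 9 * B := by linarith
    have h2 : y * (2 * g + x) ≤ y * (9 * B) := mul_le_mul_of_nonneg_left h1 hy0
    have h3 : y * (9 * B) ≤ 3 * B * (9 * B) := mul_le_mul_of_nonneg_right hyB (by positivity)
    have h4 : (3 * B * (9 * B) : ℤ) = 27 * B ^ 2 := by ring
    rw [h4] at h3
    exact h2.trans h3
  -- (4)
  have hAA := hB' A ρ (Ext.rfl' hAc (by simp))
  rw [hD] at hAA
  have hv2 := abs_le.mp hv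
  have hyv : y * lv a c A ρ ≤ 3 * B * Hv := by
    have h1 : y * lv a c A ρ ≤ y * Hv := mul_le_mul_of_nonneg_left hv2.2 hy0
    have h2 : y * (Hv : ℤ) ≤ 3 * B * Hv := mul_le_mul_of_nonneg_right hyB hHv0
    linarith
  have hxw : lv w cw A ρ ≤ x * lv w cw A ρ := by
    have : 0 ≤ (x - 1) * lv w cw A ρ := mul_nonneg (by omega) (by omega)
    linarith [sub_mul x 1 (lv w cw A ρ), one_mul (lv w cw A ρ)]
  have hy1 : 1 ≤ y := by
    by_contra hcon
    have h0 : y = 0 := by omega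
    rw [h0] at hAA
    linarith
  have hPc : (P : ℤ) = 27 * B ^ 2 + 3 * B * Hv + 1 := by
    rw [hP']
    push_cast
    ring
  refine ⟨by rw [hPc]; linarith, y, hy1, hyB, hP1, ?_⟩
  have hfin := hB ι V vs ng q D κ P A ρ dd d₀ (3 * B * Hv) (27 * B ^ 2) hE (by omega)
    (by rw [hPc]; linarith) (by rw [hD]; linarith) (fun R σ h => (hB' R σ h).trans hyx)
  rw [hdd, hP] at hfin
  exact hfin

end Helper36.TP
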