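import Pool.Agent.Helper49.TP.StM

/-!
# Project TP, module FRX: correction of the reference weight
-/

set_option autoImplicit false

namespace Pool.Agent.Helper36.TP

open Finset Pool.Agent.Helper49.TP Pool.Agent.Helper93.IA Pool.Agent.Helper38.IA

/-- splitting of the sums -/
theorem frx_split {β : Type} [Fintype β] (p : β → Prop) [DecidablePred p] (u s : β → ℝ)
    (hs : ∀ b, ¬ p b → s b = 0) :
    ∑ b, (if p b then u b - s b else 0) = ∑ b, (if p b then u b else 0) - ∑ b, s b := by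
  rw [← Finset.sum_sub_distrib]
  refine Finset.sum_congr rfl fun b _ => ?_
  by_cases h : p b
  · rw [if_pos h, if_pos h]
  · rw [if_neg h, if_neg h, hs b h, sub_zero]

/-- the bound on an edge -/
theorem frx_bd {w s b δ ε : ℝ} (hw : 0 ≤ w ∧ w ≤ b / δ) (hs : |s - 1| ≤ ε) (hδ : 0 < δ)
    (hb : b ≤ ε) : |1 - w - s| ≤ (1 + 1 / δ) * ε := by
  have h1 : b / δ ≤ ε / δ := div_le_div_of_nonneg_right hb hδ.le
  have h2 : (1 + 1 / δ) * ε = ε + ε / δ := by ring
  have h3 := abs_le.1 hs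
  rw [h2, abs_le]
  constructor <;> linarith [hw.1, hw.2, h3.1, h3.2]

theorem hFRX : StFRX := by
  intro hCOR hBLY δ c0 Λ hδ hδ4 hc0 hΛ
  set K : ℝ := 50000 / δ with hK
  have hK0 : 0 < K := by positivity
  have hKd : 0 < K * (1 + 1 / δ) := by positivity
  set ε : ℝ := min (min (1 / 1000) δ) (c0 / (K * (1 + 1 / δ))) with hε
  have hε0 : 0 < ε := lt_min (lt_min (by norm_num) hδ) (by positivity)
  have hε1 : ε ≤ 1 / 1000 := (min_le_left _ _).trans (min_le_left _ _)
  have hε2 : ε ≤ δ := (min_le_left _ _).trans (min_le_right _ _)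
  have hε3 : K * ((1 + 1 / δ) * ε) ≤ c0 := by
    have h1 : ε ≤ c0 / (K * (1 + 1 / δ)) := min_le_right _ _
    rw [le_div_iff₀ hKd] at h1
    linarith
  refine ⟨ε, hε0, hε1, hε2, ?_⟩
  intro α β γ _ _ _ _ _ _ n hn hα hβ hγ A B C b x0 hM hb0 hbε hI hW
  obtain ⟨wA, wB, wC, hwA, hwB, hwC, b1, b2, b3⟩ :=
    hBLY δ hδ hδ4 α β γ n hn hα hβ hγ A B C b hM hb0 (hbε.trans hε2) hI
  have hn0 : (0 : ℝ) < n := Nat.cast_pos.2 hn
  have hx0 : ∀ a b' c, ¬ Tri A B C a b' c → x0 a b' c = 0 := fun a b' c h => by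
    by_contra h1
    exact h (hW.tr a b' c h1)
  have zA : ∀ a b', (a, b') ∉ A → ∑ c, x0 a b' c = 0 := fun a b' h =>
    Finset.sum_eq_zero fun c _ => hx0 a b' c fun h1 => h h1.1
  have zB : ∀ b' c, (b', c) ∉ B → ∑ a, x0 a b' c = 0 := fun b' c h =>
    Finset.sum_eq_zero fun a _ => hx0 a b' c fun h1 => h h1.2.1
  have zC : ∀ c a, (c, a) ∉ C → ∑ b', x0 a b' c = 0 := fun c a h =>
    Finset.sum_eq_zero fun b' _ => hx0 a b' c fun h1 => h h1.2.2
  have ht : 0 ≤ (1 + 1 / δ) * ε := by positivity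
  obtain ⟨y, hy, hyt, yA, yB, yC⟩ := hCOR δ hδ hδ4 α β γ n A B C
    (fun a b' => 1 - wA a b' - ∑ c, x0 a b' c) (fun b' c => 1 - wB b' c - ∑ a, x0 a b' c)
    (fun c a => 1 - wC c a - ∑ b', x0 a b' c) ((1 + 1 / δ) * ε) hn hα hβ hγ hM ht
    (fun a b' h => frx_bd (hwA a b') (hW.eA a b' h) hδ hbε)
    (fun b' c h => frx_bd (hwB b' c) (hW.eB b' c h) hδ hbε)
    (fun c a h => frx_bd (hwC c a) (hW.eC c a h) hδ hbε)
    (fun a => by
      rw [frx_split (fun b' => (a, b') ∈ A) _ _ (fun b' => zA a b'),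
        frx_split (fun c => (c, a) ∈ C) _ _ (fun c => zC c a), b1 a, Finset.sum_comm])
    (fun b' => by
      rw [frx_split (fun c => (b', c) ∈ B) _ _ (fun c => zB b' c),
        frx_split (fun a => (a, b') ∈ A) _ _ (fun a => zA a b'), b2 b', Finset.sum_comm])
    (fun c => by
      rw [frx_split (fun a => (c, a) ∈ C) _ _ (fun a => zC c a),
        frx_split (fun b' => (b', c) ∈ B) _ _ (fun b' => zB b' c), b3 c, Finset.sum_comm])
  have hy' : ∀ a b' c, |y a b' c| ≤ c0 / n := fun a b' c =>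
    (hy a b' c).trans (div_le_div_of_nonneg_right hε3 hn0.le)
  have hy0 : ∀ a b' c, ¬ Tri A B C a b' c → y a b' c = 0 := fun a b' c h => by
    by_contra h1
    exact h (hyt a b' c h1)
  have hb' : b / δ ≥ 0 := by positivity
  refine ⟨fun a b' c => x0 a b' c + y a b' c, fun a b' c => ?_, fun a b' c => ?_,
    fun a b' c h => ?_, fun a b' h => ?_, fun a b' => ?_, fun b' c h => ?_, fun b' c => ?_,
    fun c a h => ?_, fun c a => ?_⟩
  · by_cases h : Tri A B C a b' c
    · have h1 := hW.lo a b' c h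
      have h2 := (abs_le.1 (hy' a b' c)).1
      show 0 ≤ x0 a b' c + y a b' c
      linarith
    · show 0 ≤ x0 a b' c + y a b' c
      rw [hx0 _ _ _ h, hy0 _ _ _ h, add_zero]
  · show x0 a b' c + y a b' c ≤ _
    rw [add_div]
    exact add_le_add (hW.up a b' c) ((le_abs_self _).trans (hy' a b' c))
  · by_contra h1
    apply h
    show x0 a b' c + y a b' c = 0
    rw [hx0 a b' c h1, hy0 a b' c h1, add_zero]
  · rw [Finset.sum_add_distrib, yA a b' h]
    linarith [(hwA a b').2]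
  · rw [Finset.sum_add_distrib]
    by_cases h : (a, b') ∈ A
    · rw [yA a b' h]
      linarith [(hwA a b').1]
    · rw [zA a b' h, Finset.sum_eq_zero fun c _ => hy0 a b' c fun h1 => h h1.1]
      norm_num
  · rw [Finset.sum_add_distrib, yB b' c h]
    linarith [(hwB b' c).2]
  · rw [Finset.sum_add_distrib]
    by_cases h : (b', c) ∈ B
    · rw [yB b' c h]
      linarith [(hwB b' c).1]
    · rw [zB b' c h, Finset.sum_eq_zero fun a _ => hy0 a b' c fun h1 => h h1.2.1]
      norm_num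
  · rw [Finset.sum_add_distrib, yC c a h]
    linarith [(hwC c a).2]
  · rw [Finset.sum_add_distrib]
    by_cases h : (c, a) ∈ C
    · rw [yC c a h]
      linarith [(hwC c a).1]
    · rw [zC c a h, Finset.sum_eq_zero fun b' _ => hy0 a b' c fun h1 => h h1.2.2]
      norm_num

end Pool.Agent.Helper36.TP
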