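import Pool.Agent.Helper49.TP.StG

/-!
# Project TP, module FSD: the side inequality
-/

set_option autoImplicit false

namespace Pool.Agent.Helper36.TP

open Finset Pool.Agent.Helper49.TP Pool.Agent.Helper93.IA

/-- one column outside of the bad set -/
theorem fsd_one {F a b fa fb m : ℝ} (ha : 0 ≤ a) (hb : 0 ≤ b) (hfa : 0 ≤ fa ∧ fa ≤ F)
    (hfb : 0 ≤ fb ∧ fb ≤ F) (hm : 0 ≤ m) (h : m ≤ a + b) :
    m * (fa + fb - F) ≤ a * fa + b * fb := by
  rcases le_total fa fb with h1 | h1
  · have e1 : a * fa + b * fb ≥ (a + b) * fa := by nlinarith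
    have e2 : (a + b) * fa ≥ m * fa := mul_le_mul_of_nonneg_right h hfa.1
    have e3 : m * fa ≥ m * (fa + fb - F) := mul_le_mul_of_nonneg_left (by linarith [hfb.2]) hm
    linarith
  · have e1 : a * fa + b * fb ≥ (a + b) * fb := by nlinarith
    have e2 : (a + b) * fb ≥ m * fb := mul_le_mul_of_nonneg_right h hfb.1
    have e3 : m * fb ≥ m * (fa + fb - F) := mul_le_mul_of_nonneg_left (by linarith [hfa.2]) hm
    linarith

theorem hFSD : StFSD := by
  intro n F Λ A FA FB a b m ρ bad hΛ hF hFA hFB sA sB ha hb hA hbad hm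
  have hA0 : ∀ s : Fin n, 0 ≤ A := fun s => by
    rw [← hA (ρ s)]
    exact Finset.sum_nonneg fun c _ => mul_nonneg (ha _ _) (hFA _ _).1
  have key : ∀ s, n * (2 - F - F ^ 2 / Λ) * max (m s) 0 ≤ A + ∑ c, b c s * FB c s := by
    intro s
    have hB0 : 0 ≤ ∑ c, b c s * FB c s :=
      Finset.sum_nonneg fun c _ => mul_nonneg (hb _ _) (hFB _ _).1
    rcases le_total (m s) 0 with h0 | h0
    · rw [max_eq_right h0, mul_zero]
      exact add_nonneg (hA0 s) hB0
    · rw [max_eq_left h0]
      have h1 : ∀ c, m s * (FA (ρ s) c + FB c s - F - (if c ∈ bad s then F else 0)) ≤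
          a (ρ s) c * FA (ρ s) c + b c s * FB c s := by
        intro c
        by_cases hc : c ∈ bad s
        · rw [if_pos hc]
          have e1 : m s * (FA (ρ s) c + FB c s - F - F) ≤ 0 :=
            mul_nonpos_of_nonneg_of_nonpos h0 (by linarith [(hFA (ρ s) c).2, (hFB c s).2])
          have e2 : 0 ≤ a (ρ s) c * FA (ρ s) c := mul_nonneg (ha _ _) (hFA _ _).1
          have e3 : 0 ≤ b c s * FB c s := mul_nonneg (hb _ _) (hFB _ _).1
          linarith
        · rw [if_neg hc, sub_zero]
          exact fsd_one (ha _ _) (hb _ _) (hFA _ _) (hFB _ _) h0 (hm s c hc)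
      have h2 := Finset.sum_le_sum fun c (_ : c ∈ (Finset.univ : Finset (Fin n))) => h1 c
      rw [Finset.sum_add_distrib, hA, ← Finset.mul_sum, Finset.sum_sub_distrib,
        Finset.sum_sub_distrib, Finset.sum_add_distrib, sA, sB, Finset.sum_const,
        Finset.card_univ, Fintype.card_fin, nsmul_eq_mul, Finset.sum_ite_mem, Finset.univ_inter,
        Finset.sum_const, nsmul_eq_mul] at h2
      refine le_trans ?_ h2
      have h3 : ((bad s).card : ℝ) * F ≤ n * F / Λ * F :=
        mul_le_mul_of_nonneg_right (hbad s) hF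
      have h4 : (n : ℝ) * F / Λ * F = n * (F ^ 2 / Λ) := by ring
      have h5 : n * (2 - F - F ^ 2 / Λ) * m s = m s * (n + n - n * F - n * (F ^ 2 / Λ)) := by ring
      rw [h5]
      refine mul_le_mul_of_nonneg_left ?_ h0
      linarith
  have h := Finset.sum_le_sum fun s (_ : s ∈ (Finset.univ : Finset (Fin n))) => key s
  rw [← Finset.mul_sum, Finset.sum_add_distrib, Finset.sum_const, Finset.card_univ,
    Fintype.card_fin, nsmul_eq_mul] at h
  rw [Finset.sum_comm]
  exact h

end Pool.Agent.Helper36.TP
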