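import Pool.Agent.Helper49.TP.Sym

/-!
# Project TP, module SHA: a protoplex which splits into two halves is not completable if `4k > n`
-/

set_option autoImplicit false

namespace Pool.Agent.Helper36.TP

open Finset Pool.Agent.Helper49.TP Pool.Agent.Helper92.Proto

/-- `1` if the two entries are different -/
def df (a b : Bool) : ℕ := if a = b then 0 else 1

theorem df_comm (a b : Bool) : df a b = df b a := by
  cases a <;> cases b <;> rfl

theorem df_three (a b c : Bool) : df a b + df b c + df c a ≤ 2 := by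
  cases a <;> cases b <;> cases c <;> simp [df]

theorem df_self (a : Bool) : df a a = 0 := by simp [df]

theorem sum_df {n : ℕ} (f : Fin n → Bool) (hf : 2 * (univ.filter fun r => f r = true).card = n)
    (b : Bool) : 2 * ∑ c, df b (f c) = n := by
  have h1 : ∑ c, df true (f c) + ∑ c, df false (f c) = n := by
    rw [← Finset.sum_add_distrib]
    have : ∀ c, df true (f c) + df false (f c) = 1 := fun c => by
      cases f c <;> simp [df]
    simp [this]
  have h2 : ∑ c, df false (f c) = (univ.filter fun r => f r = true).card := by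
    rw [Finset.card_filter]
    refine Finset.sum_congr rfl fun c _ => ?_
    cases f c <;> simp [df]
  cases b
  · rw [h2]
    exact hf
  · omega

theorem hSHA : StSHA := by
  intro n k P ρ κ σ hP hn hk hρ hκ hσ hcol hC
  obtain ⟨L, hL, hLP⟩ := hC
  set D : Fin n → Fin n → ℕ := fun r c =>
    df (ρ r) (κ c) + df (κ c) (σ (L r c)) + df (σ (L r c)) (ρ r) with hD
  have hD2 : ∀ r c, D r c ≤ 2 := fun r c => df_three _ _ _
  have hD0 : ∀ r c, P r c ≠ none → D r c = 0 := by
    intro r c h
    obtain ⟨s, hs⟩ := Option.ne_none_iff_exists'.1 h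
    have h1 := hcol r c s hs
    have h2 := hLP r c s hs
    show df (ρ r) (κ c) + df (κ c) (σ (L r c)) + df (σ (L r c)) (ρ r) = 0
    rw [h2, h1.1, h1.2]
    simp [df]
  have hrow : ∀ r, ∑ c, D r c + 2 * k ≤ 2 * n := by
    intro r
    have h1 : ∀ c, D r c + 2 * (if P r c ≠ none then 1 else 0) ≤ 2 := by
      intro c
      by_cases h : P r c ≠ none
      · rw [if_pos h, hD0 r c h]
      · rw [if_neg h]
        have := hD2 r c
        omega
    have h2 := Finset.sum_le_sum fun c (_ : c ∈ (univ : Finset (Fin n))) => h1 c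
    rw [Finset.sum_add_distrib, ← Finset.mul_sum, ← Finset.card_filter, hP.row r,
      Finset.sum_const, Finset.card_univ, Fintype.card_fin, smul_eq_mul] at h2
    omega
  have hup : ∑ r, ∑ c, D r c + n * (2 * k) ≤ n * (2 * n) := by
    have h2 := Finset.sum_le_sum fun r (_ : r ∈ (univ : Finset (Fin n))) => hrow r
    rw [Finset.sum_add_distrib, Finset.sum_const, Finset.sum_const, Finset.card_univ,
      Fintype.card_fin, smul_eq_mul, smul_eq_mul] at h2
    exact h2
  have hA : 2 * ∑ r, ∑ c, df (ρ r) (κ c) = n * n := by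
    rw [Finset.mul_sum, Finset.sum_congr rfl fun r _ => sum_df κ hκ (ρ r), Finset.sum_const,
      Finset.card_univ, Fintype.card_fin, smul_eq_mul]
  have hB : 2 * ∑ r, ∑ c, df (κ c) (σ (L r c)) = n * n := by
    rw [Finset.sum_comm, Finset.mul_sum]
    have h1 : ∀ c, 2 * ∑ r, df (κ c) (σ (L r c)) = n := by
      intro c
      rw [(hL.2 c).sum_comp (fun s => df (κ c) (σ s))]
      exact sum_df σ hσ (κ c)
    rw [Finset.sum_congr rfl fun c _ => h1 c, Finset.sum_const,
      Finset.card_univ, Fintype.card_fin, smul_eq_mul]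
  have hE : 2 * ∑ r, ∑ c, df (σ (L r c)) (ρ r) = n * n := by
    rw [Finset.mul_sum]
    have h1 : ∀ r, 2 * ∑ c, df (σ (L r c)) (ρ r) = n := by
      intro r
      rw [(hL.1 r).sum_comp (fun s => df (σ s) (ρ r)),
        Finset.sum_congr rfl fun s _ => df_comm (σ s) (ρ r)]
      exact sum_df σ hσ (ρ r)
    rw [Finset.sum_congr rfl fun c _ => h1 c, Finset.sum_const,
      Finset.card_univ, Fintype.card_fin, smul_eq_mul]
  have hsum : ∑ r, ∑ c, D r c = ∑ r, ∑ c, df (ρ r) (κ c) + ∑ r, ∑ c, df (κ c) (σ (L r c))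
      + ∑ r, ∑ c, df (σ (L r c)) (ρ r) := by
    simp only [hD, Finset.sum_add_distrib]
  have h3 : 4 * (n * k) ≤ n * n := by
    have e1 : n * (2 * k) = 2 * (n * k) := by ring
    have e2 : n * (2 * n) = 2 * (n * n) := by ring
    rw [e1, e2] at hup
    omega
  have h4 : n * (4 * k) ≤ n * n := by
    have e1 : n * (4 * k) = 4 * (n * k) := by ring
    rw [e1]
    exact h3
  exact absurd (Nat.le_of_mul_le_mul_left h4 hn) (not_le.2 hk)

end Pool.Agent.Helper36.TP
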